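import Pool.Agent.Y522.NA.StmK
import Pool.Agent.Y761.CI.Pre

/-!
Project KF (helper522): `k`-parameter families from the level preserving theorem (helper813, adapted
from the one-parameter case Pool/Agent/Y434/CI by helper434).
-/

set_option autoImplicit false

open Set Filter Topology Function
open scoped Manifold ContDiff

noncomputable section

namespace Pool.Agent.Y813.KF

open Pool.Agent.Y522 Pool.Agent.Y522.NA

/-- `E k × E (m + 1) ≃ E (k + m + 1)` -/
def el (k m : ℕ) : (E k × E (m + 1)) ≃L[ℝ] E (k + m + 1) :=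
  ContinuousLinearEquiv.ofFinrankEq (by
    rw [Module.finrank_prod, finrank_euclideanSpace_fin, finrank_euclideanSpace_fin,
      finrank_euclideanSpace_fin]
    omega)

/-- first coordinates -/
def hd {k m : ℕ} : E (k + m + 1) →L[ℝ] E k :=
  (ContinuousLinearMap.fst ℝ (E k) (E (m + 1))).comp (el k m).symm.toContinuousLinearMap

/-- last coordinates -/
def tl {k m : ℕ} : E (k + m + 1) →L[ℝ] E (m + 1) :=
  (ContinuousLinearMap.snd ℝ (E k) (E (m + 1))).comp (el k m).symm.toContinuousLinearMap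

@[simp] theorem hd_el {k m : ℕ} (p : E k × E (m + 1)) : hd (el k m p) = p.1 := by
  simp [hd]

@[simp] theorem tl_el {k m : ℕ} (p : E k × E (m + 1)) : tl (el k m p) = p.2 := by
  simp [tl]

/-- the product -/
def Pr (k : ℕ) (X : Type) : Type := E k × X

section

variable {k m : ℕ} {X : Type}

instance [TopologicalSpace X] : TopologicalSpace (Pr k X) := inferInstanceAs (TopologicalSpace (E k × X))
instance [TopologicalSpace X] [T2Space X] : T2Space (Pr k X) := inferInstanceAs (T2Space (E k × X))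

/-- into the product -/
def mk (p : E k × X) : Pr k X := p

/-- out of the product -/
def un (p : Pr k X) : E k × X := p

@[simp] theorem un_mk (p : E k × X) : un (mk p) = p := rfl
@[simp] theorem mk_un (p : Pr k X) : mk (un p) = p := rfl

theorem un_inj {p q : Pr k X} (h : un p = un q) : p = q := h

theorem cont_mk [TopologicalSpace X] : Continuous (mk : E k × X → Pr k X) := continuous_id
theorem cont_un [TopologicalSpace X] : Continuous (un : Pr k X → E k × X) := continuous_id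

variable [TopologicalSpace X]

/-- the charts -/
def ch (χ : OpenPartialHomeomorph X (E (m + 1))) : OpenPartialHomeomorph (Pr k X) (E (k + m + 1)) :=
  (((OpenPartialHomeomorph.refl (E k)).prod χ : OpenPartialHomeomorph (E k × X) (E k × E (m + 1))) ≫ₕ
    (el k m).toHomeomorph.toOpenPartialHomeomorph : OpenPartialHomeomorph (E k × X) (E (k + m + 1)))

theorem ch_source (χ : OpenPartialHomeomorph X (E (m + 1))) (p : Pr k X) :
    p ∈ (ch χ : OpenPartialHomeomorph (Pr k X) (E (k + m + 1))).source ↔ (un p).2 ∈ χ.source := by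
  unfold ch
  change (un p) ∈ (((OpenPartialHomeomorph.refl (E k)).prod χ) ≫ₕ
    (el k m).toHomeomorph.toOpenPartialHomeomorph).source ↔ _
  simp

theorem ch_apply (χ : OpenPartialHomeomorph X (E (m + 1))) (p : Pr k X) :
    ch χ p = el k m ((un p).1, χ (un p).2) := rfl

theorem ch_symm (χ : OpenPartialHomeomorph X (E (m + 1))) (z : E (k + m + 1)) :
    (ch χ : OpenPartialHomeomorph (Pr k X) (E (k + m + 1))).symm z = mk (hd z, χ.symm (tl z)) := rfl

theorem ch_target (χ : OpenPartialHomeomorph X (E (m + 1))) (z : E (k + m + 1)) :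
    z ∈ (ch χ : OpenPartialHomeomorph (Pr k X) (E (k + m + 1))).target ↔ tl z ∈ χ.target := by
  unfold ch
  change z ∈ (((OpenPartialHomeomorph.refl (E k)).prod χ) ≫ₕ
    (el k m).toHomeomorph.toOpenPartialHomeomorph).target ↔ _
  simp
  rfl

instance instCh [ChartedSpace (E (m + 1)) X] : ChartedSpace (E (k + m + 1)) (Pr k X) where
  atlas := {e | ∃ χ ∈ atlas (E (m + 1)) X, e = ch χ}
  chartAt p := ch (chartAt (E (m + 1)) (un p).2)
  mem_chart_source p := by
    rw [ch_source]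
    exact mem_chart_source _ _
  chart_mem_atlas p := ⟨_, chart_mem_atlas _ _, rfl⟩

instance instMan [ChartedSpace (E (m + 1)) X] [IsManifold (𝓡 (m + 1)) ∞ X] :
    IsManifold (𝓡 (k + m + 1)) ∞ (Pr k X) := by
  apply isManifold_of_contDiffOn
  rintro _ _ ⟨χ, hχ, rfl⟩ ⟨χ', hχ', rfl⟩
  have h1 : ContDiffOn ℝ ∞ (χ.symm ≫ₕ χ') (χ.symm ≫ₕ χ').source := by
    have h2 := (contDiffGroupoid ∞ (𝓡 (m + 1))).compatible hχ hχ'
    rw [contDiffGroupoid, mem_groupoid_of_pregroupoid] at h2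
    have h4 := h2.1
    simpa [contDiffPregroupoid] using h4
  have h5 : ContDiffOn ℝ ∞ (fun z : E (k + m + 1) => el k m (hd z, (χ.symm ≫ₕ χ') (tl z)))
      {z | tl z ∈ (χ.symm ≫ₕ χ').source} := by
    have h6 : ContDiffOn ℝ ∞ (fun z : E (k + m + 1) => ((hd z : E k), (χ.symm ≫ₕ χ') (tl z)))
        {z | tl z ∈ (χ.symm ≫ₕ χ').source} :=
      (hd (k := k) (m := m)).contDiff.contDiffOn.prodMk
        (h1.comp (tl (k := k) (m := m)).contDiff.contDiffOn fun z hz => hz)
    exact (el k m).contDiff.comp_contDiffOn h6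
  refine h5.mono ?_
  intro z hz
  have hz1 := hz.1
  simp only [modelWithCornersSelf_coe_symm, preimage_id_eq, id_eq,
    OpenPartialHomeomorph.trans_source, OpenPartialHomeomorph.symm_source, mem_inter_iff,
    mem_preimage] at hz1
  refine ⟨(ch_target χ z).1 hz1.1, ?_⟩
  have := (ch_source χ' _).1 hz1.2
  rwa [ch_symm] at this

end

section

variable {k m : ℕ} {X : Type} [TopologicalSpace X] [ChartedSpace (E (m + 1)) X]
  [IsManifold (𝓡 (m + 1)) ∞ X]

theorem smooth_mk : ContMDiff ((𝓡 k).prod (𝓡 (m + 1))) (𝓡 (k + m + 1)) ∞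
    (mk : E k × X → Pr k X) := by
  intro p
  obtain ⟨χ, hχe⟩ : ∃ χ, χ = chartAt (E (m + 1)) p.2 := ⟨_, rfl⟩
  have hps : p.2 ∈ χ.source := by rw [hχe]; exact mem_chart_source _ _
  have hχ : χ ∈ IsManifold.maximalAtlas (𝓡 (m + 1)) ∞ X := by
    rw [hχe]; exact IsManifold.chart_mem_maximalAtlas _
  have hch : (ch χ : OpenPartialHomeomorph (Pr k X) (E (k + m + 1))) ∈
      IsManifold.maximalAtlas (𝓡 (k + m + 1)) ∞ (Pr k X) := by
    rw [hχe]; exact IsManifold.chart_mem_maximalAtlas (mk p)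
  have h2 : ContMDiffAt ((𝓡 k).prod (𝓡 (m + 1))) (𝓡 (k + m + 1)) ∞
      (fun q : E k × X => el k m (q.1, χ q.2)) p := by
    have h3 : ContMDiffAt (𝓡 (m + 1)) (𝓡 (m + 1)) ∞ χ p.2 :=
      (contMDiffOn_of_mem_maximalAtlas hχ).contMDiffAt (χ.open_source.mem_nhds hps)
    have h4 : ContMDiffAt ((𝓡 k).prod (𝓡 (m + 1))) (𝓡 (m + 1)) ∞ (fun q : E k × X => χ q.2) p :=
      h3.comp p contMDiffAt_snd
    have h5 := (contMDiffAt_fst (I := 𝓡 k) (J := 𝓡 (m + 1)) (n := ∞) (p := p)).prodMk_space h4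
    exact (el k m).contDiff.contMDiff.contMDiffAt.comp p h5
  have hz : ch χ (mk p) ∈ (ch χ : OpenPartialHomeomorph (Pr k X) (E (k + m + 1))).target :=
    (ch χ).map_source ((ch_source χ _).2 hps)
  have h1 : ContMDiffAt (𝓡 (k + m + 1)) (𝓡 (k + m + 1)) ∞
      (ch χ : OpenPartialHomeomorph (Pr k X) (E (k + m + 1))).symm (ch χ (mk p)) :=
    (contMDiffOn_symm_of_mem_maximalAtlas hch).contMDiffAt ((ch χ).open_target.mem_nhds hz)
  have h6 := ContMDiffAt.comp p (f := fun q : E k × X => el k m (q.1, χ q.2)) h1 h2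
  refine h6.congr_of_eventuallyEq ?_
  have h7 : ∀ᶠ q : E k × X in 𝓝 p, q.2 ∈ χ.source :=
    continuous_snd.continuousAt (χ.open_source.mem_nhds hps)
  filter_upwards [h7] with q hq
  change mk q = (ch χ : OpenPartialHomeomorph (Pr k X) (E (k + m + 1))).symm (el k m (q.1, χ q.2))
  rw [ch_symm]
  simp [χ.left_inv hq]

theorem smooth_un : ContMDiff (𝓡 (k + m + 1)) ((𝓡 k).prod (𝓡 (m + 1))) ∞
    (un : Pr k X → E k × X) := by
  intro p
  obtain ⟨χ, hχe⟩ : ∃ χ, χ = chartAt (E (m + 1)) (un p).2 := ⟨_, rfl⟩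
  have hps : (un p).2 ∈ χ.source := by rw [hχe]; exact mem_chart_source _ _
  have hχ : χ ∈ IsManifold.maximalAtlas (𝓡 (m + 1)) ∞ X := by
    rw [hχe]; exact IsManifold.chart_mem_maximalAtlas _
  have hch : (ch χ : OpenPartialHomeomorph (Pr k X) (E (k + m + 1))) ∈
      IsManifold.maximalAtlas (𝓡 (k + m + 1)) ∞ (Pr k X) := by
    rw [hχe]; exact IsManifold.chart_mem_maximalAtlas p
  have hps' : p ∈ (ch χ : OpenPartialHomeomorph (Pr k X) (E (k + m + 1))).source :=
    (ch_source χ p).2 hps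
  have h1 : ContMDiffAt (𝓡 (k + m + 1)) (𝓡 (k + m + 1)) ∞
      (ch χ : OpenPartialHomeomorph (Pr k X) (E (k + m + 1))) p :=
    (contMDiffOn_of_mem_maximalAtlas hch).contMDiffAt ((ch χ).open_source.mem_nhds hps')
  have h2 : ContMDiffAt (𝓡 (k + m + 1)) (𝓡 k) ∞ (fun q : Pr k X => (hd (ch χ q) : E k)) p :=
    (hd (k := k) (m := m)).contDiff.contMDiff.contMDiffAt.comp p h1
  have h3 : ContMDiffAt (𝓡 (k + m + 1)) (𝓡 (m + 1)) ∞
      (fun q : Pr k X => (tl (ch χ q) : E (m + 1))) p :=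
    (tl (k := k) (m := m)).contDiff.contMDiff.contMDiffAt.comp p h1
  have hy : (tl (ch χ p) : E (m + 1)) ∈ χ.target := (ch_target χ _).1 ((ch χ).map_source hps')
  have h4 : ContMDiffAt (𝓡 (m + 1)) (𝓡 (m + 1)) ∞ χ.symm (tl (ch χ p)) :=
    (contMDiffOn_symm_of_mem_maximalAtlas hχ).contMDiffAt (χ.open_target.mem_nhds hy)
  have h5 := h2.prodMk (ContMDiffAt.comp p (f := fun q : Pr k X => (tl (ch χ q) : E (m + 1))) h4 h3)
  refine h5.congr_of_eventuallyEq ?_
  filter_upwards [(ch χ).open_source.mem_nhds hps'] with q hq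
  have h6 : (ch χ : OpenPartialHomeomorph (Pr k X) (E (k + m + 1))).symm (ch χ q) = q :=
    (ch χ).left_inv hq
  rw [ch_symm] at h6
  exact (congrArg un h6).symm

end

/-- globally invertible smooth maps are local diffeomorphisms -/
theorem LD_of_inv {n : ℕ} {M N : Type} [TopologicalSpace M] [ChartedSpace (E n) M]
    [TopologicalSpace N] [ChartedSpace (E n) N] {f : M → N} {g : N → M}
    (hf : ContMDiff (𝓡 n) (𝓡 n) ∞ f) (hg : ContMDiff (𝓡 n) (𝓡 n) ∞ g)
    (hgf : ∀ x, g (f x) = x) (hfg : ∀ y, f (g y) = y) (x : M) : LD n f x :=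
  ⟨{ toFun := f
     invFun := g
     source := univ
     target := univ
     map_source' := fun _ _ => mem_univ _
     map_target' := fun _ _ => mem_univ _
     left_inv' := fun x _ => hgf x
     right_inv' := fun y _ => hfg y
     open_source := isOpen_univ
     open_target := isOpen_univ
     contMDiffOn_toFun := hf.contMDiffOn
     contMDiffOn_invFun := hg.contMDiffOn }, mem_univ _, fun _ _ => rfl⟩

section

variable {k m : ℕ} {X Y : Type} [TopologicalSpace X] [ChartedSpace (E (m + 1)) X]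
  [IsManifold (𝓡 (m + 1)) ∞ X]
  [TopologicalSpace Y] [ChartedSpace (E (m + 1)) Y] [IsManifold (𝓡 (m + 1)) ∞ Y]

/-- the level preserving map of a family -/
def lft (F : E k × X → Y) (p : Pr k X) : Pr k Y := mk ((un p).1, F (un p))

theorem smooth_lft {F : E k × X → Y}
    (hF : ContMDiff ((𝓡 k).prod (𝓡 (m + 1))) (𝓡 (m + 1)) ∞ F) :
    ContMDiff (𝓡 (k + m + 1)) (𝓡 (k + m + 1)) ∞ (lft F) := by
  have h1 : ContMDiff ((𝓡 k).prod (𝓡 (m + 1))) ((𝓡 k).prod (𝓡 (m + 1))) ∞
      (fun q : E k × X => (q.1, F q)) := contMDiff_fst.prodMk hF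
  exact (smooth_mk (X := Y)).comp (h1.comp (smooth_un (X := X)))

theorem smooth_hgt : ContMDiff (𝓡 (k + m + 1)) (𝓡 k) ∞ (fun p : Pr k X => (un p).1) :=
  contMDiff_fst.comp (smooth_un (X := X))

/-- the inclusion of a level -/
theorem smooth_lev (t : E k) :
    ContMDiff (𝓡 (m + 1)) (𝓡 (k + m + 1)) ∞ (fun x : X => (mk (t, x) : Pr k X)) :=
  (smooth_mk (X := X)).comp (contMDiff_const.prodMk contMDiff_id)

theorem smooth_lin (x : X) :
    ContMDiff (𝓡 k) (𝓡 (k + m + 1)) ∞ (fun t : E k => (mk (t, x) : Pr k X)) :=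
  (smooth_mk (X := X)).comp (contMDiff_id.prodMk contMDiff_const)

theorem smooth_snd : ContMDiff (𝓡 (k + m + 1)) (𝓡 (m + 1)) ∞ (fun p : Pr k X => (un p).2) :=
  contMDiff_snd.comp (smooth_un (X := X))

/-- the slices of a level preserving bijective local diffeomorphism -/
theorem LD_slice {F : Pr k X → Pr k Y} (hb : Bijective F) (hF : ∀ p, LD (k + m + 1) F p)
    (hl : ∀ p, (un (F p)).1 = (un p).1) (t : E k) (x : X) :
    LD (m + 1) (fun x => (un (F (mk (t, x)))).2) x := by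
  obtain ⟨G, hG⟩ := hb.2.hasRightInverse
  have hG' : ∀ p, G (F p) = p := fun p => hb.1 (hG (F p))
  have hGs : ContMDiff (𝓡 (k + m + 1)) (𝓡 (k + m + 1)) ∞ G := fun y =>
    (LD.inverse_bij hb hF hG' y).contMDiffAt
  have hFs : ContMDiff (𝓡 (k + m + 1)) (𝓡 (k + m + 1)) ∞ F := fun y => (hF y).contMDiffAt
  have hlG : ∀ q, (un (G q)).1 = (un q).1 := by
    intro q
    have := hl (G q)
    rw [hG q] at this
    exact this.symm
  refine LD_of_inv (g := fun y => (un (G (mk (t, y)))).2) ?_ ?_ ?_ ?_ x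
  · exact (smooth_snd (X := Y)).comp (hFs.comp (smooth_lev t))
  · exact (smooth_snd (X := X)).comp (hGs.comp (smooth_lev t))
  · intro x
    have h1 : (mk (t, (un (F (mk (t, x)))).2) : Pr k Y) = F (mk (t, x)) := by
      apply un_inj
      refine Prod.ext ?_ rfl
      exact (hl (mk (t, x))).symm
    change (un (G (mk (t, (un (F (mk (t, x)))).2)))).2 = x
    rw [h1, hG']
    rfl
  · intro y
    have h1 : (mk (t, (un (G (mk (t, y)))).2) : Pr k X) = G (mk (t, y)) := by
      apply un_inj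
      refine Prod.ext ?_ rfl
      exact (hlG (mk (t, y))).symm
    change (un (F (mk (t, (un (G (mk (t, y)))).2)))).2 = y
    rw [h1, hG]
    rfl

end

theorem rk {U V W Z R : Type*} [AddCommGroup U] [Module ℝ U] [AddCommGroup V] [Module ℝ V]
    [AddCommGroup W] [Module ℝ W] [AddCommGroup Z] [Module ℝ Z] [AddCommGroup R] [Module ℝ R]
    [FiniteDimensional ℝ V] [FiniteDimensional ℝ R]
    (A : U →ₗ[ℝ] V) (J : Z →ₗ[ℝ] U) (S : V →ₗ[ℝ] W) (T : V →ₗ[ℝ] R)
    (hT : ∀ z, T (A (J z)) = 0) (hv : Surjective (T ∘ₗ A)) :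
    Module.finrank ℝ (LinearMap.range (S.comp (A.comp J))) + Module.finrank ℝ R ≤
      Module.finrank ℝ (LinearMap.range A) := by
  have h1 : Module.finrank ℝ (LinearMap.range (S.comp (A.comp J))) ≤
      Module.finrank ℝ (LinearMap.range (A.comp J)) := by
    rw [LinearMap.range_comp]
    exact Submodule.finrank_map_le _ _
  have hsur : Surjective (T.domRestrict (LinearMap.range A)) := by
    intro r
    obtain ⟨u, hu⟩ := hv r
    exact ⟨⟨A u, LinearMap.mem_range_self A u⟩, hu⟩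
  have h2 := LinearMap.finrank_range_add_finrank_ker (T.domRestrict (LinearMap.range A))
  have h3 : Module.finrank ℝ (LinearMap.range (T.domRestrict (LinearMap.range A))) =
      Module.finrank ℝ R := by
    rw [LinearMap.range_eq_top.2 hsur, finrank_top]
  have h4 : Module.finrank ℝ (LinearMap.range (A.comp J)) ≤
      Module.finrank ℝ (LinearMap.ker (T.domRestrict (LinearMap.range A))) := by
    have h5 : LinearMap.range (A.comp J) ≤
        (LinearMap.ker (T.domRestrict (LinearMap.range A))).map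
          (LinearMap.range A).subtype := by
      rintro _ ⟨z, rfl⟩
      refine ⟨⟨A (J z), LinearMap.mem_range_self A (J z)⟩, ?_, rfl⟩
      exact hT z
    refine (Submodule.finrank_mono h5).trans ?_
    exact Submodule.finrank_map_le _ _
  omega

/-- the rank -/
def rkn (a b : ℕ) (L : E a →L[ℝ] E b) : ℕ := Module.finrank ℝ (LinearMap.range L.toLinearMap)

section

variable {k m : ℕ} {X Y : Type} [TopologicalSpace X] [ChartedSpace (E (m + 1)) X]
  [IsManifold (𝓡 (m + 1)) ∞ X]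
  [TopologicalSpace Y] [ChartedSpace (E (m + 1)) Y] [IsManifold (𝓡 (m + 1)) ∞ Y]

theorem inj_lft {F : E k × X → Y} (hb : ∀ t, Bijective fun x => F (t, x)) (t t' : E k) (x x' : X)
    (h : lft F (mk (t, x)) = lft F (mk (t', x'))) : (mk (t, x) : Pr k X) = mk (t', x') := by
  have h1 : t = t' := congrArg (fun r : Pr k Y => (un r).1) h
  subst h1
  have h2 : F (t, x) = F (t, x') := congrArg (fun r : Pr k Y => (un r).2) h
  have h3 : x = x' := (hb t).1 h2
  rw [h3]

theorem bij_lft {F : E k × X → Y} (hb : ∀ t, Bijective fun x => F (t, x)) :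
    Bijective (lft F) := by
  constructor
  · intro p q hpq
    exact inj_lft hb (un p).1 (un q).1 (un p).2 (un q).2 hpq
  · intro q
    obtain ⟨x, hx⟩ := (hb (un q).1).2 (un q).2
    refine ⟨mk ((un q).1, x), ?_⟩
    apply un_inj
    exact Prod.ext rfl hx

theorem mf_hgt (p : Pr k X) :
    Surjective (mfderiv (𝓡 (k + m + 1)) (𝓡 k) (fun p : Pr k X => (un p).1) p) := by
  have h1 : MDifferentiableAt (𝓡 (k + m + 1)) (𝓡 k) (fun p : Pr k X => (un p).1) p :=
    (smooth_hgt (X := X) (k := k)).mdifferentiableAt (by simp)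
  have h2 : MDifferentiableAt (𝓡 k) (𝓡 (k + m + 1))
      (fun t : E k => (mk (t, (un p).2) : Pr k X)) (un p).1 :=
    (smooth_lin (X := X) (k := k) (un p).2).mdifferentiableAt (by simp)
  obtain ⟨T, hT⟩ : ∃ T : E (k + m + 1) →L[ℝ] E k,
      T = mfderiv (𝓡 (k + m + 1)) (𝓡 k) (fun p : Pr k X => (un p).1) p := ⟨_, rfl⟩
  obtain ⟨V, hV⟩ : ∃ V : E k →L[ℝ] E (k + m + 1),
      V = mfderiv (𝓡 k) (𝓡 (k + m + 1)) (fun t : E k => (mk (t, (un p).2) : Pr k X)) (un p).1 :=
    ⟨_, rfl⟩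
  have g1 : HasMFDerivAt (𝓡 (k + m + 1)) (𝓡 k) (fun p : Pr k X => (un p).1)
      (mk ((un p).1, (un p).2)) T := by
    rw [hT]; exact h1.hasMFDerivAt
  have g2 : HasMFDerivAt (𝓡 k) (𝓡 (k + m + 1)) (fun t : E k => (mk (t, (un p).2) : Pr k X))
      (un p).1 V := by
    rw [hV]; exact h2.hasMFDerivAt
  have g3 : HasMFDerivAt (𝓡 k) (𝓡 k) (fun t : E k => t) (un p).1 (T.comp V) :=
    HasMFDerivAt.comp (un p).1 g1 g2
  have g4 : T.comp V = ContinuousLinearMap.id ℝ (E k) :=
    hasMFDerivAt_unique g3 (hasMFDerivAt_id _)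
  have g5 : Surjective T := fun y => ⟨V y, congrArg (fun L : E k →L[ℝ] E k => L y) g4⟩
  rw [hT] at g5
  exact g5

theorem mf_rank {F : E k × X → Y} (hF : ContMDiff ((𝓡 k).prod (𝓡 (m + 1))) (𝓡 (m + 1)) ∞ F)
    (t : E k) (x : X) : Module.finrank ℝ
      (LinearMap.range (mfderiv (𝓡 (m + 1)) (𝓡 (m + 1)) (fun x => F (t, x)) x).toLinearMap) + k ≤
    Module.finrank ℝ
      (LinearMap.range (mfderiv (𝓡 (k + m + 1)) (𝓡 (k + m + 1)) (lft F)
        (mk (t, x))).toLinearMap) := by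
  have hA : MDifferentiableAt (𝓡 (k + m + 1)) (𝓡 (k + m + 1)) (lft F) (mk (t, x)) :=
    (smooth_lft hF).mdifferentiableAt (by simp)
  have hJ : MDifferentiableAt (𝓡 (m + 1)) (𝓡 (k + m + 1)) (fun x : X => (mk (t, x) : Pr k X)) x :=
    (smooth_lev t).mdifferentiableAt (by simp)
  have hS : MDifferentiableAt (𝓡 (k + m + 1)) (𝓡 (m + 1)) (fun q : Pr k Y => (un q).2)
      (lft F (mk (t, x))) :=
    smooth_snd.mdifferentiableAt (by simp)
  have hT : MDifferentiableAt (𝓡 (k + m + 1)) (𝓡 k) (fun q : Pr k Y => (un q).1)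
      (lft F (mk (t, x))) := smooth_hgt.mdifferentiableAt (by simp)
  have hV : MDifferentiableAt (𝓡 k) (𝓡 (k + m + 1)) (fun s : E k => (mk (s, x) : Pr k X)) t :=
    (smooth_lin x).mdifferentiableAt (by simp)
  obtain ⟨A, gA, eA⟩ : ∃ A : E (k + m + 1) →L[ℝ] E (k + m + 1),
      HasMFDerivAt (𝓡 (k + m + 1)) (𝓡 (k + m + 1)) (lft F) (mk (t, x)) A ∧
      mfderiv (𝓡 (k + m + 1)) (𝓡 (k + m + 1)) (lft F) (mk (t, x)) = A :=
    ⟨_, hA.hasMFDerivAt, rfl⟩
  obtain ⟨J, gJ⟩ : ∃ J : E (m + 1) →L[ℝ] E (k + m + 1),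
      HasMFDerivAt (𝓡 (m + 1)) (𝓡 (k + m + 1)) (fun x : X => (mk (t, x) : Pr k X)) x J :=
    ⟨_, hJ.hasMFDerivAt⟩
  obtain ⟨S, gS⟩ : ∃ S : E (k + m + 1) →L[ℝ] E (m + 1),
      HasMFDerivAt (𝓡 (k + m + 1)) (𝓡 (m + 1)) (fun q : Pr k Y => (un q).2)
        (lft F (mk (t, x))) S :=
    ⟨_, hS.hasMFDerivAt⟩
  obtain ⟨T, gT⟩ : ∃ T : E (k + m + 1) →L[ℝ] E k,
      HasMFDerivAt (𝓡 (k + m + 1)) (𝓡 k) (fun q : Pr k Y => (un q).1) (lft F (mk (t, x))) T :=
    ⟨_, hT.hasMFDerivAt⟩
  obtain ⟨V, gV⟩ : ∃ V : E k →L[ℝ] E (k + m + 1),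
      HasMFDerivAt (𝓡 k) (𝓡 (k + m + 1)) (fun s : E k => (mk (s, x) : Pr k X)) t V :=
    ⟨_, hV.hasMFDerivAt⟩
  have e1 : HasMFDerivAt (𝓡 (m + 1)) (𝓡 (m + 1)) (fun x => F (t, x)) x (S.comp (A.comp J)) :=
    HasMFDerivAt.comp (f := lft F ∘ fun x : X => mk (t, x)) x gS (HasMFDerivAt.comp x gA gJ)
  have e2 : HasMFDerivAt (𝓡 (m + 1)) (𝓡 k) (fun _ : X => t) x (T.comp (A.comp J)) :=
    HasMFDerivAt.comp (f := lft F ∘ fun x : X => mk (t, x)) x gT (HasMFDerivAt.comp x gA gJ)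
  have e3 : HasMFDerivAt (𝓡 k) (𝓡 k) (fun s : E k => s) t (T.comp (A.comp V)) :=
    HasMFDerivAt.comp (f := lft F ∘ fun s : E k => mk (s, x)) t gT (HasMFDerivAt.comp t gA gV)
  have e2' : T.comp (A.comp J) = 0 := hasMFDerivAt_unique e2 (hasMFDerivAt_const t x)
  have e3' : T.comp (A.comp V) = ContinuousLinearMap.id ℝ (E k) :=
    hasMFDerivAt_unique e3 (hasMFDerivAt_id _)
  have h1 := rk A.toLinearMap J.toLinearMap S.toLinearMap T.toLinearMap
    (fun z => congrArg (fun L : E (m + 1) →L[ℝ] E k => L z) e2')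
    (fun y => ⟨V y, congrArg (fun L : E k →L[ℝ] E k => L y) e3'⟩)
  rw [finrank_euclideanSpace_fin] at h1
  have h2 : rkn (m + 1) (m + 1) (mfderiv (𝓡 (m + 1)) (𝓡 (m + 1)) (fun x => F (t, x)) x) =
      rkn (m + 1) (m + 1) (S.comp (A.comp J)) :=
    congrArg (rkn (m + 1) (m + 1)) e1.mfderiv
  have h3 : rkn (k + m + 1) (k + m + 1)
      (mfderiv (𝓡 (k + m + 1)) (𝓡 (k + m + 1)) (lft F) (mk (t, x))) =
      rkn (k + m + 1) (k + m + 1) A := congrArg (rkn (k + m + 1) (k + m + 1)) eA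
  have h4 : rkn (m + 1) (m + 1) (S.comp (A.comp J)) + k ≤ rkn (k + m + 1) (k + m + 1) A := h1
  rw [← h2, ← h3] at h4
  exact h4

/-- where the slice is a local diffeomorphism, so is the whole map -/
theorem LD_lft {F : E k × X → Y} (hF : ContMDiff ((𝓡 k).prod (𝓡 (m + 1))) (𝓡 (m + 1)) ∞ F)
    (t : E k) (x : X) (h : LD (m + 1) (fun x => F (t, x)) x) :
    LD (k + m + 1) (lft F) (mk (t, x)) := by
  apply Pool.Agent.Y761.CI.LD_of_injective (lft F) (smooth_lft hF)
  have h1 := mf_rank hF t x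
  obtain ⟨L, hL⟩ : ∃ L : E (m + 1) →L[ℝ] E (m + 1),
      L = mfderiv (𝓡 (m + 1)) (𝓡 (m + 1)) (fun x => F (t, x)) x := ⟨_, rfl⟩
  have h2 : Injective L := by
    rw [hL]
    exact h.mfderiv_injective
  have h3 : Module.finrank ℝ (LinearMap.range L.toLinearMap) = m + 1 := by
    rw [LinearMap.finrank_range_of_inj h2, finrank_euclideanSpace_fin]
  have h1' : Module.finrank ℝ (LinearMap.range L.toLinearMap) + k ≤
    Module.finrank ℝ
      (LinearMap.range (mfderiv (𝓡 (k + m + 1)) (𝓡 (k + m + 1)) (lft F)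
        (mk (t, x))).toLinearMap) := by
    rw [hL]
    exact h1
  rw [h3] at h1'
  obtain ⟨A, hA⟩ : ∃ A : E (k + m + 1) →L[ℝ] E (k + m + 1),
      A = mfderiv (𝓡 (k + m + 1)) (𝓡 (k + m + 1)) (lft F) (mk (t, x)) := ⟨_, rfl⟩
  have h4 : m + 1 + k ≤ Module.finrank ℝ (LinearMap.range A.toLinearMap) := by
    rw [hA]
    exact h1'
  have h5 : LinearMap.range A.toLinearMap = ⊤ := by
    apply Submodule.eq_top_of_finrank_eq
    have h6 := Submodule.finrank_le (LinearMap.range A.toLinearMap)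
    rw [finrank_euclideanSpace_fin] at h6 ⊢
    omega
  have h7 : Injective A.toLinearMap :=
    LinearMap.injective_iff_surjective.2 (LinearMap.range_eq_top.1 h5)
  rw [← hA]
  exact h7

end

/-- the radial factor -/
def phi (u : ℝ) : ℝ := Real.smoothTransition ((4 * u - 1) / 3) * (Real.sqrt u)⁻¹

theorem phi_smooth : ContDiff ℝ ∞ phi := by
  rw [contDiff_iff_contDiffAt]
  intro u
  rcases lt_or_ge u (1 / 4) with hu | hu
  · have h1 : ContDiffAt ℝ ∞ (fun _ : ℝ => (0 : ℝ)) u := contDiffAt_const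
    refine h1.congr_of_eventuallyEq ?_
    filter_upwards [gt_mem_nhds hu] with v hv
    unfold phi
    rw [Real.smoothTransition.zero_of_nonpos (by linarith), zero_mul]
  · have hu0 : u ≠ 0 := by linarith
    have hu1 : Real.sqrt u ≠ 0 := (Real.sqrt_pos.2 (by linarith)).ne'
    have h1 : ContDiffAt ℝ ∞ (fun u : ℝ => Real.smoothTransition ((4 * u - 1) / 3)) u := by
      have h2 : ContDiff ℝ ∞ (fun u : ℝ => (4 * u - 1) / 3) := by fun_prop
      exact (Real.smoothTransition.contDiff.comp h2).contDiffAt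
    exact h1.mul ((Real.contDiffAt_sqrt hu0).inv hu1)

/-- the radial cut-off map -/
def gg {k : ℕ} (s : E k) : E k := phi (‖s‖ ^ 2) • s

theorem gg_smooth (k : ℕ) : ContDiff ℝ ∞ (gg : E k → E k) := by
  unfold gg
  exact (phi_smooth.comp (contDiff_norm_sq ℝ)).smul contDiff_id

theorem gg_le {k : ℕ} (s : E k) : ‖gg s‖ ≤ 1 := by
  unfold gg phi
  rw [norm_smul, norm_mul, Real.sqrt_sq (norm_nonneg s), norm_inv, norm_norm, mul_assoc]
  have h1 : ‖Real.smoothTransition ((4 * ‖s‖ ^ 2 - 1) / 3)‖ ≤ 1 := by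
    rw [Real.norm_eq_abs, abs_of_nonneg (Real.smoothTransition.nonneg _)]
    exact Real.smoothTransition.le_one _
  have h2 : ‖s‖⁻¹ * ‖s‖ ≤ 1 := inv_mul_le_one
  have h3 : 0 ≤ ‖s‖⁻¹ * ‖s‖ := by positivity
  nlinarith [norm_nonneg (Real.smoothTransition ((4 * ‖s‖ ^ 2 - 1) / 3))]

theorem gg_eq {k : ℕ} (s : E k) (hs : 1 ≤ ‖s‖) : gg s = ‖s‖⁻¹ • s := by
  unfold gg phi
  rw [Real.sqrt_sq (norm_nonneg s), Real.smoothTransition.one_of_one_le, one_mul]
  nlinarith

theorem gg_norm {k : ℕ} (s : E k) (hs : 1 ≤ ‖s‖) : ‖gg s‖ = 1 := by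
  rw [gg_eq s hs, norm_smul, norm_inv, norm_norm]
  exact inv_mul_cancel₀ (by linarith)

/-- KI -/
theorem ki (h : StKL) : StKI := by
  intro k m X Y _ _ _ _ _ _ _ _ _ f hf hb hr h1
  obtain ⟨F, hFd⟩ : ∃ F : E k × X → Y, F = fun q => f (gg q.1, q.2) := ⟨_, rfl⟩
  have hFs : ContMDiff ((𝓡 k).prod (𝓡 (m + 1))) (𝓡 (m + 1)) ∞ F := by
    rw [hFd]
    have h2 : ContMDiff (𝓡 k) (𝓡 k) ∞ (gg : E k → E k) := (gg_smooth k).contMDiff
    exact hf.comp ((h2.comp contMDiff_fst).prodMk contMDiff_snd)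
  have hFb : ∀ t, Bijective fun x => F (t, x) := fun t => by
    rw [hFd]
    exact hb (gg t) (gg_le t)
  have hLb := bij_lft hFb
  have hLs : ContMDiff (𝓡 (k + m + 1)) (𝓡 (k + m + 1)) ∞ (lft F) := smooth_lft hFs
  have hLc : IsClosedMap (lft F) := by
    have h2 : IsProperMap ((fun p : Pr k Y => (un p).1) ∘ lft F) :=
      (isProperMap_fst_of_compactSpace : IsProperMap (Prod.fst : E k × X → E k))
    exact (isProperMap_of_comp_of_t2 hLs.continuous
      (continuous_fst.comp cont_un) h2).isClosedMap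
  obtain ⟨H, hH⟩ : ∃ H : Pr k X ≃ₜ Pr k Y, (H : Pr k X → Pr k Y) = lft F :=
    ⟨(Equiv.ofBijective (lft F) hLb).toHomeomorphOfContinuousClosed hLs.continuous hLc, rfl⟩
  have hlev : ∀ p, (un (H p)).1 = (un p).1 := fun p => by rw [hH]; rfl
  -- the bad set
  have hcpt : IsCompact {p | ¬ LD (k + m + 1) H p} := by
    have hK : IsCompact {p : Pr k X | (un p).1 ∈ Metric.closedBall (0 : E k) 1} := by
      have h2 : IsCompact ((Metric.closedBall (0 : E k) 1) ×ˢ (univ : Set X)) :=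
        (isCompact_closedBall (0 : E k) 1).prod isCompact_univ
      have h3 : {p : Pr k X | (un p).1 ∈ Metric.closedBall (0 : E k) 1} =
          mk '' ((Metric.closedBall (0 : E k) 1) ×ˢ (univ : Set X)) := by
        ext p
        constructor
        · intro hp
          exact ⟨un p, ⟨hp, mem_univ _⟩, rfl⟩
        · rintro ⟨q, hq, rfl⟩
          exact hq.1
      rw [h3]
      exact h2.image cont_mk
    refine hK.of_isClosed_subset ?_ ?_
    · rw [← isOpen_compl_iff, isOpen_iff_mem_nhds]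
      intro p hp
      have hp' : LD (k + m + 1) H p := not_not.1 hp
      filter_upwards [hp'.eventually] with q hq
      exact not_not.2 hq
    · intro p hp
      by_contra hn
      apply hp
      have hn' : 1 < ‖(un p).1‖ := by
        by_contra hc
        apply hn
        change (un p).1 ∈ Metric.closedBall (0 : E k) 1
        rw [mem_closedBall_zero_iff]
        exact not_lt.1 hc
      rw [hH]
      refine LD_lft hFs (un p).1 (un p).2 ?_
      rw [hFd]
      exact h1 (gg (un p).1) (gg_norm _ hn'.le) (un p).2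
  obtain ⟨f', C, hC, hb', hld', hτ', heq'⟩ := h k (k + m) (Pr k X) (Pr k Y) H
    (fun p => (un p).1)
    (by rw [hH]; exact hLs) smooth_hgt
    (by
      intro p
      have : (fun x => (un (H x)).1) = fun p : Pr k X => (un p).1 := funext hlev
      rw [this]
      exact mf_hgt p)
    (by
      intro p
      have h2 := mf_rank hFs (un p).1 (un p).2
      have h3 := hr (gg (un p).1) (gg_le _) (un p).2
      rw [hH]
      refine le_trans ?_ h2
      rw [add_comm k m]
      refine Nat.add_le_add_right ?_ k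
      rw [hFd]
      exact h3)
    hcpt
  have hlev' : ∀ p, (un (f' p)).1 = (un p).1 := fun p => (hτ' p).trans (hlev p)
  have hs' : ContMDiff (𝓡 (k + m + 1)) (𝓡 (k + m + 1)) ∞ f' := fun p => (hld' p).contMDiffAt
  obtain ⟨R, hR1, hRC⟩ : ∃ R : ℝ, 1 ≤ R ∧ ∀ p ∈ C, ‖(un p).1‖ < R := by
    have h2 : IsCompact ((fun p : Pr k X => (un p).1) '' C) :=
      hC.image (continuous_fst.comp cont_un)
    obtain ⟨R, hR⟩ := h2.isBounded.subset_closedBall 0
    refine ⟨|R| + 1, by linarith [abs_nonneg R], fun p hp => ?_⟩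
    have h3 := hR ⟨p, hp, rfl⟩
    rw [mem_closedBall_zero_iff] at h3
    exact (h3.trans (le_abs_self R)).trans_lt (lt_add_one _)
  refine ⟨fun q => (un (f' (mk (R • q.1, q.2)))).2, ?_, ?_, ?_, ?_⟩
  · have h2 : ContMDiff (𝓡 k) (𝓡 k) ∞ (fun s : E k => R • s) := by
      have : ContDiff ℝ ∞ (fun s : E k => R • s) := by fun_prop
      exact this.contMDiff
    have h3 : ContMDiff ((𝓡 k).prod (𝓡 (m + 1))) (𝓡 (k + m + 1)) ∞
        (fun q : E k × X => (mk (R • q.1, q.2) : Pr k X)) :=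
      (smooth_mk (X := X)).comp ((h2.comp contMDiff_fst).prodMk contMDiff_snd)
    exact (smooth_snd (X := Y)).comp (hs'.comp h3)
  · intro t
    constructor
    · intro x x' hxx
      have h2 : f' (mk (R • t, x)) = f' (mk (R • t, x')) := by
        apply un_inj
        refine Prod.ext ?_ hxx
        rw [hlev', hlev']
        rfl
      have h3 := hb'.1 h2
      exact congrArg (fun r : Pr k X => (un r).2) h3
    · intro y
      obtain ⟨p, hp⟩ := hb'.2 (mk (R • t, y))
      refine ⟨(un p).2, ?_⟩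
      have h2 : (un p).1 = R • t := by
        rw [← hlev', hp]
        rfl
      have h3 : (mk (R • t, (un p).2) : Pr k X) = p := by
        apply un_inj
        exact Prod.ext h2.symm rfl
      change (un (f' (mk (R • t, (un p).2)))).2 = y
      rw [h3, hp]
      rfl
  · intro t x
    exact LD_slice hb' hld' hlev' (R • t) x
  · intro s hs x
    have hn : ‖R • s‖ = R := by
      rw [norm_smul, hs, mul_one, Real.norm_eq_abs, abs_of_nonneg (by linarith)]
    have h2 : (mk (R • s, x) : Pr k X) ∉ C := fun hc => by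
      have h3 := hRC _ hc
      change ‖R • s‖ < R at h3
      rw [hn] at h3
      exact lt_irrefl _ h3
    change (un (f' (mk (R • s, x)))).2 = _
    rw [heq' _ h2, hH, hFd]
    change f (gg (R • s), x) = _
    rw [gg_eq _ (by rw [hn]; exact hR1), hn, smul_smul, inv_mul_cancel₀ (by linarith), one_smul]

end Pool.Agent.Y813.KF
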